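import Pool.Graph.R_seed8.Results.MP_00f561_co.LastPairMeetsTwice

/-!
# MP_00f561_co: blue and red circles, any matching of exceptional pairs

The blue circle with parameter `b ∈ (0, 1)` is the unit circle with centre `(0, b, √(1 - b²))` in the
plane `y = b`, the red circle with parameter `a` is the unit circle with centre `(a, 0, √(1 - a²))` in
the plane `x = a`. They meet in exactly one point if `a ≠ b` and in exactly two points if `a = b`.
-/

set_option autoImplicit false

open Cardinal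

namespace Pool.Agent.Results.MP_00f561_co.AnyMatching

open Pool.Agent.Results.MP_00f561_co.LastPairMeetsTwice

/-- The height of the centre. -/
noncomputable def ht (a : ℝ) : ℝ := √(1 - a ^ 2)

/-- The blue circle with parameter `b`. -/
noncomputable def blueC (b : ℝ) : Set E3 := circ 1 !₂[0, b, ht b]

/-- The red circle with parameter `a`. -/
noncomputable def redC (a : ℝ) : Set E3 := circ 0 !₂[a, 0, ht a]

theorem ht_sq {a : ℝ} (h0 : 0 < a) (h1 : a < 1) : ht a ^ 2 = 1 - a ^ 2 := by
  unfold ht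
  rw [Real.sq_sqrt]
  nlinarith

theorem ht_pos {a : ℝ} (h0 : 0 < a) (h1 : a < 1) : 0 < ht a := by
  unfold ht
  apply Real.sqrt_pos.mpr
  nlinarith

theorem mem_blueC (b : ℝ) (x : E3) :
    x ∈ blueC b ↔ x 1 = b ∧ x 0 ^ 2 + (x 2 - ht b) ^ 2 = 1 := by
  unfold blueC circ
  simp only [Set.mem_ofPred_eq]
  rw [EuclideanSpace.dist_eq]
  simp only [Fin.sum_univ_three, Real.dist_eq, sq_abs]
  simp only [Matrix.cons_val_zero, Matrix.cons_val_one, Matrix.cons_val,
    Real.sqrt_eq_one]
  constructor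
  · rintro ⟨h1, h2⟩
    refine ⟨h1, ?_⟩
    rw [h1] at h2
    linarith [h2]
  · rintro ⟨h1, h2⟩
    refine ⟨h1, ?_⟩
    rw [h1]
    linarith [h2]

theorem mem_redC (a : ℝ) (x : E3) :
    x ∈ redC a ↔ x 0 = a ∧ x 1 ^ 2 + (x 2 - ht a) ^ 2 = 1 := by
  unfold redC circ
  simp only [Set.mem_ofPred_eq]
  rw [EuclideanSpace.dist_eq]
  simp only [Fin.sum_univ_three, Real.dist_eq, sq_abs]
  simp only [Matrix.cons_val_zero, Matrix.cons_val_one, Matrix.cons_val,
    Real.sqrt_eq_one]
  constructor
  · rintro ⟨h1, h2⟩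
    refine ⟨h1, ?_⟩
    rw [h1] at h2
    linarith [h2]
  · rintro ⟨h1, h2⟩
    refine ⟨h1, ?_⟩
    rw [h1]
    linarith [h2]

theorem inter_eq {a b : ℝ} (ha0 : 0 < a) (ha1 : a < 1) (hb0 : 0 < b) (hb1 : b < 1) (x : E3) :
    x ∈ blueC b ∩ redC a ↔
      x = !₂[a, b, ht b + ht a] ∨ (ht b = ht a ∧ x = !₂[a, b, 0]) := by
  have hj := ht_sq ha0 ha1
  have hi := ht_sq hb0 hb1
  have hpos := ht_pos ha0 ha1
  rw [Set.mem_inter_iff, mem_blueC, mem_redC]
  constructor
  · rintro ⟨⟨h1, h2⟩, h3, h4⟩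
    rw [h3] at h2
    rw [h1] at h4
    have e1 : (x 2 - ht b - ht a) * (x 2 - ht b + ht a) = 0 := by nlinarith
    rcases mul_eq_zero.mp e1 with h | h
    · left
      apply ext3
      · simpa using h3
      · simpa using h1
      · simp
        linarith
    · have hx : x 2 = ht b - ht a := by linarith
      rw [hx] at h4
      have e2 : ht a * (ht a - ht b) = 0 := by nlinarith
      rcases mul_eq_zero.mp e2 with h' | h'
      · exact absurd h' hpos.ne'
      · right
        refine ⟨by linarith, ?_⟩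
        apply ext3
        · simpa using h3
        · simpa using h1
        · simp
          linarith
  · rintro (h | ⟨hTA, h⟩)
    · have x0 : x 0 = a := by rw [h]; simp
      have x1 : x 1 = b := by rw [h]; simp
      have x2 : x 2 = ht b + ht a := by rw [h]; simp
      rw [x0, x1, x2]
      exact ⟨⟨rfl, by nlinarith⟩, rfl, by nlinarith⟩
    · have x0 : x 0 = a := by rw [h]; simp
      have x1 : x 1 = b := by rw [h]; simp
      have x2 : x 2 = 0 := by rw [h]; simp
      rw [x0, x1, x2]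
      exact ⟨⟨rfl, by nlinarith⟩, rfl, by nlinarith⟩

theorem ht_inj {a b : ℝ} (ha0 : 0 < a) (ha1 : a < 1) (hb0 : 0 < b) (hb1 : b < 1)
    (h : ht b = ht a) : b = a := by
  have h1 : ht b ^ 2 = ht a ^ 2 := by rw [h]
  rw [ht_sq ha0 ha1, ht_sq hb0 hb1] at h1
  nlinarith

theorem card_eq {a : ℝ} (ha0 : 0 < a) (ha1 : a < 1) : (blueC a ∩ redC a).ncard = 2 := by
  have : blueC a ∩ redC a = {!₂[a, a, ht a + ht a], !₂[a, a, 0]} := by
    ext x
    rw [inter_eq ha0 ha1 ha0 ha1]
    simp
  rw [this, Set.ncard_pair]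
  intro h
  have h2 := congrArg (fun x : E3 => x 2) h
  simp at h2
  have := ht_pos ha0 ha1
  linarith

theorem card_ne {a b : ℝ} (ha0 : 0 < a) (ha1 : a < 1) (hb0 : 0 < b) (hb1 : b < 1)
    (hab : b ≠ a) : (blueC b ∩ redC a).ncard = 1 := by
  have : blueC b ∩ redC a = {!₂[a, b, ht b + ht a]} := by
    ext x
    rw [inter_eq ha0 ha1 hb0 hb1, Set.mem_singleton_iff]
    constructor
    · rintro (h | ⟨h, -⟩)
      · exact h
      · exact absurd (ht_inj ha0 ha1 hb0 hb1 h) hab
    · exact Or.inl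
  rw [this, Set.ncard_singleton]

/-- **Any matching of exceptional pairs.** Let `I`, `J` be sets of at most continuum many indices
and let `M ⊆ I × J` be a (partial) matching. There are pairwise disjoint blue circles `B i` (`i ∈ I`)
and pairwise disjoint red circles `R j` (`j ∈ J`) in `ℝ³` such that `B i` and `R j` meet in exactly
two points if `(i, j) ∈ M` and in exactly one point if `(i, j) ∉ M`. -/
theorem result (I J : Type) (hI : #I ≤ 𝔠) (hJ : #J ≤ 𝔠) (M : Set (I × J))
    (h1 : ∀ i j j', (i, j) ∈ M → (i, j') ∈ M → j = j')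
    (h2 : ∀ i i' j, (i, j) ∈ M → (i', j) ∈ M → i = i') :
    ∃ (B : I → Set E3) (R : J → Set E3),
      (∀ i, IsCircle (B i)) ∧ (∀ j, IsCircle (R j)) ∧
      (∀ i i', i ≠ i' → Disjoint (B i) (B i')) ∧ (∀ j j', j ≠ j' → Disjoint (R j) (R j')) ∧
      ∀ i j, ((i, j) ∈ M → (B i ∩ R j).ncard = 2) ∧ ((i, j) ∉ M → (B i ∩ R j).ncard = 1) := by
  classical
  -- an injection of `I ⊕ J` into the unit interval
  have hcard : #(I ⊕ J) ≤ #(Set.Ioo (0 : ℝ) 1) := by
    rw [mk_Ioo_real one_pos, Cardinal.mk_sum, Cardinal.lift_id, Cardinal.lift_id]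
    exact Cardinal.add_le_of_le aleph0_le_continuum hI hJ
  obtain ⟨e⟩ := Cardinal.le_def _ _ |>.1 hcard
  let a : J → ℝ := fun j => e (Sum.inr j)
  let b : I → ℝ := fun i => if h : ∃ j, (i, j) ∈ M then a h.choose else e (Sum.inl i)
  have ha : ∀ j, 0 < a j ∧ a j < 1 := fun j => (e (Sum.inr j)).2
  have hb : ∀ i, 0 < b i ∧ b i < 1 := by
    intro i
    by_cases h : ∃ j, (i, j) ∈ M
    · simp only [b, dif_pos h]
      exact ha _
    · simp only [b, dif_neg h]
      exact (e (Sum.inl i)).2
  have hainj : ∀ j j', a j = a j' → j = j' := by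
    intro j j' h
    have := e.injective (Subtype.ext h)
    exact Sum.inr.inj this
  have hbM : ∀ i j, (i, j) ∈ M → b i = a j := by
    intro i j hij
    have h : ∃ j, (i, j) ∈ M := ⟨j, hij⟩
    simp only [b, dif_pos h]
    rw [h1 i _ _ h.choose_spec hij]
  have hbM' : ∀ i j, b i = a j → (i, j) ∈ M := by
    intro i j hij
    by_cases h : ∃ j, (i, j) ∈ M
    · simp only [b, dif_pos h] at hij
      rw [← hainj _ _ hij]
      exact h.choose_spec
    · simp only [b, dif_neg h] at hij
      have := e.injective (Subtype.ext hij)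
      simp at this
  have hbinj : ∀ i i', b i = b i' → i = i' := by
    intro i i' hii
    by_cases h : ∃ j, (i, j) ∈ M
    · obtain ⟨j, hj⟩ := h
      have : b i' = a j := by rw [← hii, hbM i j hj]
      exact h2 _ _ _ hj (hbM' _ _ this)
    · by_cases h' : ∃ j, (i', j) ∈ M
      · obtain ⟨j, hj⟩ := h'
        have : b i = a j := by rw [hii, hbM i' j hj]
        exact h2 _ _ _ (hbM' _ _ this) hj
      · simp only [b, dif_neg h, dif_neg h'] at hii
        exact Sum.inl.inj (e.injective (Subtype.ext hii))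
  refine ⟨fun i => blueC (b i), fun j => redC (a j), fun i => isCircle_circ _ _,
    fun j => isCircle_circ _ _, ?_, ?_, fun i j => ⟨fun h => ?_, fun h => ?_⟩⟩
  · intro i j hij
    rw [Set.disjoint_left]
    intro x hx hx'
    rw [mem_blueC] at hx hx'
    exact hij (hbinj _ _ (hx.1.symm.trans hx'.1))
  · intro i j hij
    rw [Set.disjoint_left]
    intro x hx hx'
    rw [mem_redC] at hx hx'
    exact hij (hainj _ _ (hx.1.symm.trans hx'.1))
  · show (blueC (b i) ∩ redC (a j)).ncard = 2
    rw [hbM i j h]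
    exact card_eq (ha j).1 (ha j).2
  · exact card_ne (ha j).1 (ha j).2 (hb i).1 (hb i).2 fun hab => h (hbM' i j hab)

end Pool.Agent.Results.MP_00f561_co.AnyMatching
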